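import Pool.Agent.X51.Rec.Cycle

/-!
# Graphs whose reconfiguration graph of minimal dominating sets is a tree
-/

set_option autoImplicit false

namespace Pool.Agent.Results.MP_746574_co.TreeIffStar

open Finset SimpleGraph

universe u

variable {V : Type u} [Fintype V] [DecidableEq V]

/-- `S` is a dominating set of `G`. -/
def IsDominating (G : SimpleGraph V) (S : Finset V) : Prop := ∀ y, y ∈ S ∨ ∃ x ∈ S, G.Adj x y

/-- `S` is a minimal dominating set of `G`. -/
def IsMinDominating (G : SimpleGraph V) (S : Finset V) : Prop :=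
  IsDominating G S ∧ ∀ v ∈ S, ¬ IsDominating G (S.erase v)

/-- The reconfiguration graph `R(G)`: its vertices are the minimal dominating sets of `G`; `M₁` and
`M₂` are adjacent if there is a vertex `v` with `M₂ \ M₁ = {v}` and `M₁ \ M₂ ⊆ N(v)`, or with
`M₁ \ M₂ = {v}` and `M₂ \ M₁ ⊆ N(v)`. -/
def reconf (G : SimpleGraph V) : SimpleGraph {S : Finset V // IsMinDominating G S} where
  Adj M₁ M₂ := ∃ v, (M₂.1 \ M₁.1 = {v} ∧ ∀ x ∈ M₁.1 \ M₂.1, G.Adj v x) ∨
    (M₁.1 \ M₂.1 = {v} ∧ ∀ x ∈ M₂.1 \ M₁.1, G.Adj v x)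
  symm := ⟨by
    rintro M₁ M₂ ⟨v, h | h⟩
    · exact ⟨v, Or.inr h⟩
    · exact ⟨v, Or.inl h⟩⟩
  loopless := ⟨by
    rintro M ⟨v, h | h⟩
    · have := h.1
      rw [Finset.sdiff_self] at this
      exact absurd this.symm (Finset.singleton_ne_empty v)
    · have := h.1
      rw [Finset.sdiff_self] at this
      exact absurd this.symm (Finset.singleton_ne_empty v)⟩

lemma isMin_of {G : SimpleGraph V} {S : Finset V} (h : Pool.Agent.X51.Rec.MD G Finset.univ S) :
    IsMinDominating G S :=
  ⟨fun y => h.2.1 y (Finset.mem_univ y), fun v hv hd => h.2.2 v hv (fun y _ => hd y)⟩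

open Pool.Agent.X51.Rec in
lemma cycle_of {G : SimpleGraph V} (h : SC G Finset.univ) :
    ∃ M, ∃ w : (reconf G).Walk M M, w.IsCycle ∧ w.length ≤ 5 := by
  rcases h with ⟨A, B, C, hA, hB, hC, h1, h2, h3⟩ | ⟨A, B, C, D, hA, hB, hC, hD, h1, h2, h3, h4, n1,
    n2⟩ | ⟨A, B, C, D, E, hA, hB, hC, hD, hE, h1, h2, h3, h4, h5, n1, n2, n3, n4, n5⟩
  · exact cyc3 (H := reconf G) (a := ⟨A, isMin_of hA⟩) (b := ⟨B, isMin_of hB⟩)
      (c := ⟨C, isMin_of hC⟩) h1 h2 h3
  · exact cyc4 (H := reconf G) (a := ⟨A, isMin_of hA⟩) (b := ⟨B, isMin_of hB⟩)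
      (c := ⟨C, isMin_of hC⟩) (d := ⟨D, isMin_of hD⟩) h1 h2 h3 h4
      (fun h => n1 (Subtype.ext_iff.mp h)) (fun h => n2 (Subtype.ext_iff.mp h))
  · exact cyc5 (H := reconf G) (a := ⟨A, isMin_of hA⟩) (b := ⟨B, isMin_of hB⟩)
      (c := ⟨C, isMin_of hC⟩) (d := ⟨D, isMin_of hD⟩) (e := ⟨E, isMin_of hE⟩) h1 h2 h3 h4 h5
      (fun h => n1 (Subtype.ext_iff.mp h)) (fun h => n2 (Subtype.ext_iff.mp h))
      (fun h => n3 (Subtype.ext_iff.mp h)) (fun h => n4 (Subtype.ext_iff.mp h))
      (fun h => n5 (Subtype.ext_iff.mp h))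

omit [Fintype V] in
lemma two_forms {G : SimpleGraph V} {c : V} (hc : ∀ x y, G.Adj x y → x = c ∨ y = c) (S : Finset V)
    (hS : IsMinDominating G S) : (∀ y, y ∈ S ↔ ¬ G.Adj c y) ∨ (∀ y, y ∈ S ↔ y ≠ c) := by
  by_cases hcS : c ∈ S
  · left
    intro y
    constructor
    · intro hy hadj
      refine hS.2 y hy fun z => ?_
      rcases hS.1 z with hz | ⟨x, hx, hxz⟩
      · by_cases hzy : z = y
        · right
          rw [hzy]
          exact ⟨c, Finset.mem_erase.mpr ⟨hadj.ne, hcS⟩, hadj⟩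
        · exact Or.inl (Finset.mem_erase.mpr ⟨hzy, hz⟩)
      · by_cases hxy : x = y
        · left
          rcases hc x z hxz with h1 | h1
          · exfalso
            rw [hxy] at h1
            exact hadj.ne h1.symm
          · rw [h1]
            exact Finset.mem_erase.mpr ⟨hadj.ne, hcS⟩
        · exact Or.inr ⟨x, Finset.mem_erase.mpr ⟨hxy, hx⟩, hxz⟩
    · intro hy
      rcases hS.1 y with h1 | ⟨x, hx, hxy⟩
      · exact h1
      · rcases hc x y hxy with h1 | h1
        · rw [h1] at hxy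
          exact absurd hxy hy
        · rw [h1]
          exact hcS
  · right
    intro y
    constructor
    · rintro hy rfl
      exact hcS hy
    · intro hy
      rcases hS.1 y with h1 | ⟨x, hx, hxy⟩
      · exact h1
      · rcases hc x y hxy with h1 | h1
        · rw [h1] at hx
          exact absurd hx hcS
        · exact absurd h1 hy

/-- if all edges of `G` share a vertex then `R(G)` is a tree -/
lemma tree_of_inF {G : SimpleGraph V} {c : V} (hc : ∀ x y, G.Adj x y → x = c ∨ y = c) :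
    (reconf G).IsTree := by
  classical
  have h2 : ∀ A B : {S : Finset V // IsMinDominating G S}, (∀ y, y ∈ A.1 ↔ y ∈ B.1) → A = B :=
    fun A B h => Subtype.ext (Finset.ext h)
  obtain ⟨M, hM, -⟩ := Pool.Agent.X51.Rec.ext_mis (G := G) Finset.univ _ ∅ rfl
    (Finset.empty_subset _) (fun x hx => absurd hx (Finset.notMem_empty _))
  have hadj : ∀ A B : {S : Finset V // IsMinDominating G S}, (∀ y, y ∈ A.1 ↔ ¬ G.Adj c y) →
      (∀ y, y ∈ B.1 ↔ y ≠ c) → (reconf G).Adj A B := by
    intro A B hA hB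
    refine ⟨c, Or.inr ⟨?_, ?_⟩⟩
    · ext y
      rw [Finset.mem_sdiff, Finset.mem_singleton, hA, hB]
      constructor
      · rintro ⟨-, h3⟩
        exact not_not.mp h3
      · rintro rfl
        exact ⟨G.loopless.irrefl _, fun h => h rfl⟩
    · intro y hy
      rw [Finset.mem_sdiff, hA, hB] at hy
      exact not_not.mp hy.2
  refine ⟨?_, ?_⟩
  · rw [SimpleGraph.connected_iff]
    refine ⟨fun A B => ?_, ⟨⟨M, isMin_of hM.md⟩⟩⟩
    rcases two_forms hc A.1 A.2 with hA | hA <;> rcases two_forms hc B.1 B.2 with hB | hB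
    · rw [h2 A B fun y => (hA y).trans (hB y).symm]
    · exact (hadj A B hA hB).reachable
    · exact (hadj B A hB hA).reachable.symm
    · rw [h2 A B fun y => (hA y).trans (hB y).symm]
  · refine Pool.Agent.X51.Rec.acyclic_of_two fun A B C => ?_
    rcases two_forms hc A.1 A.2 with hA | hA <;> rcases two_forms hc B.1 B.2 with hB | hB <;>
      rcases two_forms hc C.1 C.2 with hC | hC
    all_goals first
      | exact Or.inl (h2 _ _ fun y => (hA y).trans (hB y).symm)
      | exact Or.inr (Or.inl (h2 _ _ fun y => (hA y).trans (hC y).symm))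
      | exact Or.inr (Or.inr (h2 _ _ fun y => (hB y).trans (hC y).symm))

omit [DecidableEq V] in
/-- graphs all of whose edges share a vertex -/
lemma iso_of_inF {G : SimpleGraph V} {c : V} (hc : ∀ x y, G.Adj x y → x = c ∨ y = c) :
    ∃ n m : ℕ, Nonempty (G ≃g ((⊥ : SimpleGraph (Fin n)) ⊕g
      completeBipartiteGraph (Fin 1) (Fin m))) := by
  classical
  let A := {y : V // y ≠ c ∧ ¬ G.Adj c y}
  let B := {y : V // G.Adj c y}
  let eA : A ≃ Fin (Fintype.card A) := Fintype.equivFin A
  let eB : B ≃ Fin (Fintype.card B) := Fintype.equivFin B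
  let f : Fin (Fintype.card A) ⊕ (Fin 1 ⊕ Fin (Fintype.card B)) → V :=
    Sum.elim (fun i => (eA.symm i).1) (Sum.elim (fun _ => c) (fun j => (eB.symm j).1))
  have hf1 : ∀ i, f (Sum.inl i) = (eA.symm i).1 := fun i => rfl
  have hf2 : ∀ i, f (Sum.inr (Sum.inl i)) = c := fun i => rfl
  have hf3 : ∀ j, f (Sum.inr (Sum.inr j)) = (eB.symm j).1 := fun j => rfl
  have hA : ∀ i, (eA.symm i).1 ≠ c ∧ ¬ G.Adj c (eA.symm i).1 := fun i => (eA.symm i).2
  have hB : ∀ j, G.Adj c (eB.symm j).1 := fun j => (eB.symm j).2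
  have hbij : Function.Bijective f := by
    constructor
    · rintro (i | i | i) (j | j | j) hij
      · rw [hf1, hf1] at hij
        rw [eA.symm.injective (Subtype.ext hij)]
      · rw [hf1, hf2] at hij
        exact absurd hij (hA i).1
      · rw [hf1, hf3] at hij
        exact absurd (hij ▸ hB j) (hA i).2
      · rw [hf2, hf1] at hij
        exact absurd hij.symm (hA j).1
      · rw [Subsingleton.elim i j]
      · rw [hf2, hf3] at hij
        exact absurd hij (hB j).ne
      · rw [hf3, hf1] at hij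
        exact absurd (hij ▸ hB i) (hA j).2
      · rw [hf3, hf2] at hij
        exact absurd hij.symm (hB i).ne
      · rw [hf3, hf3] at hij
        rw [eB.symm.injective (Subtype.ext hij)]
    · intro y
      by_cases h1 : y = c
      · exact ⟨Sum.inr (Sum.inl 0), h1.symm⟩
      · by_cases h2 : G.Adj c y
        · refine ⟨Sum.inr (Sum.inr (eB ⟨y, h2⟩)), ?_⟩
          rw [hf3, Equiv.symm_apply_apply]
        · refine ⟨Sum.inl (eA ⟨y, h1, h2⟩), ?_⟩
          rw [hf1, Equiv.symm_apply_apply]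
  have hnot : ∀ x y, x ≠ c → y ≠ c → ¬ G.Adj x y := by
    intro x y hx hy h
    rcases hc x y h with h' | h'
    · exact hx h'
    · exact hy h'
  refine ⟨Fintype.card A, Fintype.card B, ⟨(RelIso.mk (Equiv.ofBijective f hbij) ?_ :
    ((⊥ : SimpleGraph (Fin (Fintype.card A))) ⊕g
      completeBipartiteGraph (Fin 1) (Fin (Fintype.card B))) ≃g G).symm⟩⟩
  rintro (i | i | i) (j | j | j)
  · simp only [Equiv.ofBijective_apply, hf1]
    simp [hnot _ _ (hA i).1 (hA j).1]
  · simp only [Equiv.ofBijective_apply, hf1, hf2]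
    simp
    exact fun h => (hA i).2 h.symm
  · simp only [Equiv.ofBijective_apply, hf1, hf3]
    simp [hnot _ _ (hA i).1 (hB j).ne.symm]
  · simp only [Equiv.ofBijective_apply, hf1, hf2]
    simp [(hA j).2]
  · simp only [Equiv.ofBijective_apply, hf2]
    simp [completeBipartiteGraph]
  · simp only [Equiv.ofBijective_apply, hf2, hf3]
    simp [completeBipartiteGraph, hB j]
  · simp only [Equiv.ofBijective_apply, hf1, hf3]
    simp [hnot _ _ (hB i).ne.symm (hA j).1]
  · simp only [Equiv.ofBijective_apply, hf2, hf3]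
    simp [completeBipartiteGraph, (hB i).symm]
  · simp only [Equiv.ofBijective_apply, hf3]
    simp [completeBipartiteGraph, hnot _ _ (hB i).ne.symm (hB j).ne.symm]

/-- For every finite graph `G` with at least one vertex: `R(G)` is a tree if and only if `G` is
isomorphic to the disjoint union of `n` isolated vertices and a star `K_{1,m}`, `n, m ≥ 0`. -/
theorem result : ∀ (V : Type u) [Fintype V] [DecidableEq V] [Nonempty V] (G : SimpleGraph V),
    (reconf G).IsTree ↔ ∃ n m : ℕ, Nonempty (G ≃g ((⊥ : SimpleGraph (Fin n)) ⊕g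
      completeBipartiteGraph (Fin 1) (Fin m))) := by
  intro V _ _ _ G
  constructor
  · intro hT
    by_cases hF : Pool.Agent.X51.Rec.InF G Finset.univ
    · obtain ⟨c, hc⟩ := hF
      exact iso_of_inF (fun x y h => hc x (Finset.mem_univ _) y (Finset.mem_univ _) h)
    · obtain ⟨M, w, hw, -⟩ := cycle_of (Pool.Agent.X51.Rec.short_cycle _ _ rfl hF)
      exact absurd hw (hT.isAcyclic w)
  · rintro ⟨n, m, ⟨φ⟩⟩
    refine tree_of_inF (c := φ.symm (Sum.inr (Sum.inl 0))) fun x y h => ?_
    have h1 := φ.map_rel_iff.mpr h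
    rcases hx : φ x with i | i | i <;> rcases hy : φ y with j | j | j <;>
      rw [hx, hy] at h1
    · simp at h1
    · simp at h1
    · simp at h1
    · simp at h1
    · simp [completeBipartiteGraph] at h1
    · left
      rw [← φ.symm_apply_apply x, hx, Subsingleton.elim i 0]
    · simp at h1
    · right
      rw [← φ.symm_apply_apply y, hy, Subsingleton.elim j 0]
    · simp [completeBipartiteGraph] at h1

end Pool.Agent.Results.MP_746574_co.TreeIffStar
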